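import Pool.Agent.Helper25.HL.Goals1

/-!
Facts on the ridge form (packet HL-EBF).
-/

set_option autoImplicit false

open Finset

noncomputable section

namespace Pool.Agent.Helper26.HL

open Pool.Agent.Helper25.HL

variable {p q : ℕ} (σ : Fin p → Fin q → Bool) (S : Finset (Fin q)) (Λ : ℝ)

/-- the functional `y ↦ ∑ R_at y_a` -/
def cf (t : Fin q) (y : Fin p → ℂ) : ℂ := ∑ a, (Rm σ a t : ℂ) * y a

/-- `⟨y, X y⟩` -/
def E1 (y : Fin p → ℂ) : ℝ := ∑ t ∈ S, ‖cf σ t y‖ ^ 2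

lemma E1_nonneg (y : Fin p → ℂ) : 0 ≤ E1 σ S y := Finset.sum_nonneg fun _ _ => by positivity

lemma ip_XS (y : Fin p → ℂ) : ip y ((XS σ S).mulVec y) = ((E1 σ S y : ℝ) : ℂ) := by
  have h1 : ∀ t, ((‖cf σ t y‖ ^ 2 : ℝ) : ℂ) =
      ∑ a, ∑ b, (starRingEnd ℂ) (y a) * ((Rm σ a t : ℂ) * (Rm σ b t : ℂ) * y b) := by
    intro t
    rw [← Complex.normSq_eq_norm_sq, Complex.normSq_eq_conj_mul_self]
    unfold cf
    rw [map_sum, Finset.sum_mul_sum]
    refine Finset.sum_congr rfl fun a _ => Finset.sum_congr rfl fun b _ => ?_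
    rw [map_mul, Complex.conj_ofReal]
    ring
  unfold ip E1 XS Matrix.mulVec dotProduct
  rw [Complex.ofReal_sum]
  simp only [h1]
  rw [Finset.sum_comm]
  refine Finset.sum_congr rfl fun a _ => ?_
  rw [Finset.sum_comm, Finset.mul_sum]
  refine Finset.sum_congr rfl fun b _ => ?_
  rw [Finset.sum_mul, Finset.mul_sum]

lemma ip_self (y : Fin p → ℂ) : ip y y = ((Helper25.HL.sq y : ℝ) : ℂ) := by
  unfold ip Helper25.HL.sq
  rw [Complex.ofReal_sum]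
  refine Finset.sum_congr rfl fun a _ => ?_
  rw [← Complex.normSq_eq_norm_sq, Complex.normSq_eq_conj_mul_self]

lemma ip_add_left (x x' y : Fin p → ℂ) : ip (x + x') y = ip x y + ip x' y := by
  unfold ip
  rw [← Finset.sum_add_distrib]
  refine Finset.sum_congr rfl fun a _ => ?_
  simp only [Pi.add_apply, map_add]
  ring

lemma ip_add_right (x y y' : Fin p → ℂ) : ip x (y + y') = ip x y + ip x y' := by
  unfold ip
  rw [← Finset.sum_add_distrib]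
  refine Finset.sum_congr rfl fun a _ => ?_
  simp only [Pi.add_apply]
  ring

lemma ip_smul_left (c : ℝ) (x y : Fin p → ℂ) : ip ((c : ℂ) • x) y = (c : ℂ) * ip x y := by
  unfold ip
  rw [Finset.mul_sum]
  refine Finset.sum_congr rfl fun a _ => ?_
  simp only [Pi.smul_apply, smul_eq_mul, map_mul, Complex.conj_ofReal]
  ring

lemma ip_smul_right (c : ℂ) (x y : Fin p → ℂ) : ip x (c • y) = c * ip x y := by
  unfold ip
  rw [Finset.mul_sum]
  refine Finset.sum_congr rfl fun a _ => ?_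
  simp only [Pi.smul_apply, smul_eq_mul]
  ring

lemma sq_nonneg' (y : Fin p → ℂ) : 0 ≤ Helper25.HL.sq y := Finset.sum_nonneg fun _ _ => by positivity

/-- the matrix `Λ² + X` -/
def AM : Matrix (Fin p) (Fin p) ℂ := ((Λ ^ 2 : ℝ) : ℂ) • (1 : Matrix (Fin p) (Fin p) ℂ) + XS σ S

lemma AM_mulVec (y : Fin p → ℂ) :
    (AM σ S Λ).mulVec y = ((Λ ^ 2 : ℝ) : ℂ) • y + (XS σ S).mulVec y := by
  unfold AM
  rw [Matrix.add_mulVec, Matrix.smul_mulVec, Matrix.one_mulVec]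

lemma AM_unit (hΛ : 1 ≤ Λ) : IsUnit (AM σ S Λ) := by
  rw [← Matrix.mulVec_injective_iff_isUnit]
  intro y y' h
  have h0 : (AM σ S Λ).mulVec (y - y') = 0 := by
    rw [Matrix.mulVec_sub]
    exact sub_eq_zero.2 h
  have h1 : ip (y - y') ((AM σ S Λ).mulVec (y - y')) = 0 := by
    rw [h0]
    unfold ip
    simp
  rw [AM_mulVec, ip_add_right, ip_smul_right, ip_self, ip_XS] at h1
  have h2 : Λ ^ 2 * Helper25.HL.sq (y - y') + E1 σ S (y - y') = 0 := by exact_mod_cast h1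
  have h3 := sq_nonneg' (y - y')
  have h4 := E1_nonneg σ S (y - y')
  have h5 : (1 : ℝ) ≤ Λ ^ 2 := by nlinarith
  have h6 : Helper25.HL.sq (y - y') = 0 := by nlinarith
  unfold Helper25.HL.sq at h6
  rw [Finset.sum_eq_zero_iff_of_nonneg (fun _ _ => by positivity)] at h6
  funext a
  have h7 := h6 a (Finset.mem_univ a)
  have h8 : ‖(y - y') a‖ = 0 := by
    exact pow_eq_zero_iff (two_ne_zero) |>.1 h7
  have h9 := norm_eq_zero.1 h8
  simpa [sub_eq_zero] using h9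

lemma eq_AM (hΛ : 1 ≤ Λ) (v : Fin p → ℂ) :
    (AM σ S Λ).mulVec ((QS σ S Λ).mulVec v) = v := by
  have h : QS σ S Λ = (AM σ S Λ)⁻¹ := rfl
  rw [h, Matrix.mulVec_mulVec, Matrix.mul_nonsing_inv _
    ((Matrix.isUnit_iff_isUnit_det _).1 (AM_unit σ S Λ hΛ)), Matrix.one_mulVec]

lemma EB_eq (hΛ : 1 ≤ Λ) (v : Fin p → ℂ) :
    EB σ S Λ v = Λ ^ 2 * E1 σ S ((QS σ S Λ).mulVec v)
      + Helper25.HL.sq ((XS σ S).mulVec ((QS σ S Λ).mulVec v)) := by
  unfold EB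
  rw [← Matrix.mulVec_mulVec]
  set y := (QS σ S Λ).mulVec v with hy
  have h1 : ip v ((XS σ S).mulVec y) = ((Λ ^ 2 : ℝ) : ℂ) * ip y ((XS σ S).mulVec y)
      + ip ((XS σ S).mulVec y) ((XS σ S).mulVec y) := by
    conv_lhs => rw [← eq_AM σ S Λ hΛ v, ← hy, AM_mulVec]
    rw [ip_add_left, ip_smul_left]
  rw [h1, ip_XS, ip_self]
  rw [← Complex.ofReal_mul, ← Complex.ofReal_add, Complex.ofReal_re]

lemma sq_eq (hΛ : 1 ≤ Λ) (v : Fin p → ℂ) :
    Helper25.HL.sq v = EB σ S Λ v + Λ ^ 4 * Helper25.HL.sq ((QS σ S Λ).mulVec v)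
      + Λ ^ 2 * E1 σ S ((QS σ S Λ).mulVec v) := by
  rw [EB_eq σ S Λ hΛ]
  set y := (QS σ S Λ).mulVec v with hy
  have hconj : ip ((XS σ S).mulVec y) y = ((E1 σ S y : ℝ) : ℂ) := by
    have h2 : ip ((XS σ S).mulVec y) y = (starRingEnd ℂ) (ip y ((XS σ S).mulVec y)) := by
      unfold ip
      rw [map_sum]
      refine Finset.sum_congr rfl fun a _ => ?_
      rw [map_mul, Complex.conj_conj]
      ring
    rw [h2, ip_XS, Complex.conj_ofReal]
  have h1 : ((Helper25.HL.sq v : ℝ) : ℂ) = ((Λ ^ 4 * Helper25.HL.sq y + 2 * (Λ ^ 2 * E1 σ S y)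
      + Helper25.HL.sq ((XS σ S).mulVec y) : ℝ) : ℂ) := by
    rw [← ip_self]
    conv_lhs => rw [← eq_AM σ S Λ hΛ v, ← hy, AM_mulVec]
    rw [ip_add_left, ip_smul_left, ip_add_right, ip_add_right, ip_smul_right, ip_smul_right,
      ip_XS, ip_self, ip_self, hconj]
    push_cast
    ring
  have h2 : Helper25.HL.sq v = Λ ^ 4 * Helper25.HL.sq y + 2 * (Λ ^ 2 * E1 σ S y) + Helper25.HL.sq ((XS σ S).mulVec y) := by
    exact_mod_cast h1
  rw [h2]; ring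

lemma norm_add_sq_le' (a b : ℂ) : ‖a + b‖ ^ 2 ≤ 2 * ‖a‖ ^ 2 + 2 * ‖b‖ ^ 2 := by
  have h := norm_add_le a b
  have h0 := norm_nonneg (a + b)
  nlinarith [sq_nonneg (‖a‖ - ‖b‖), norm_nonneg a, norm_nonneg b]

lemma cf_add (t : Fin q) (y y' : Fin p → ℂ) : cf σ t (y + y') = cf σ t y + cf σ t y' := by
  unfold cf
  rw [← Finset.sum_add_distrib]
  refine Finset.sum_congr rfl fun a _ => ?_
  simp only [Pi.add_apply]
  ring

lemma cf_smul (t : Fin q) (c : ℂ) (y : Fin p → ℂ) : cf σ t (c • y) = c * cf σ t y := by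
  unfold cf
  rw [Finset.mul_sum]
  refine Finset.sum_congr rfl fun a _ => ?_
  simp only [Pi.smul_apply, smul_eq_mul]
  ring

lemma E1_add (y y' : Fin p → ℂ) : E1 σ S (y + y') ≤ 2 * E1 σ S y + 2 * E1 σ S y' := by
  unfold E1
  rw [Finset.mul_sum, Finset.mul_sum, ← Finset.sum_add_distrib]
  refine Finset.sum_le_sum fun t _ => ?_
  rw [cf_add]
  exact norm_add_sq_le' _ _

lemma E1_smul (c : ℂ) (y : Fin p → ℂ) : E1 σ S (c • y) = ‖c‖ ^ 2 * E1 σ S y := by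
  unfold E1
  rw [Finset.mul_sum]
  refine Finset.sum_congr rfl fun t _ => ?_
  rw [cf_smul, norm_mul, mul_pow]

lemma sq_add_le (y y' : Fin p → ℂ) : Helper25.HL.sq (y + y') ≤ 2 * Helper25.HL.sq y + 2 * Helper25.HL.sq y' := by
  unfold Helper25.HL.sq
  rw [Finset.mul_sum, Finset.mul_sum, ← Finset.sum_add_distrib]
  refine Finset.sum_le_sum fun t _ => ?_
  exact norm_add_sq_le' _ _

lemma sq_smul' (c : ℂ) (y : Fin p → ℂ) : Helper25.HL.sq (c • y) = ‖c‖ ^ 2 * Helper25.HL.sq y := by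
  unfold Helper25.HL.sq
  rw [Finset.mul_sum]
  refine Finset.sum_congr rfl fun t _ => ?_
  rw [Pi.smul_apply, smul_eq_mul, norm_mul, mul_pow]

theorem ebf : S_EBF := by
  intro p q σ S Λ hΛ
  refine ⟨fun v => ⟨?_, ?_⟩, fun v v' => ?_, fun c v => ?_⟩
  · rw [EB_eq σ S Λ hΛ]
    have h1 := E1_nonneg σ S ((QS σ S Λ).mulVec v)
    have h2 := sq_nonneg' ((XS σ S).mulVec ((QS σ S Λ).mulVec v))
    positivity
  · have h0 := sq_eq σ S Λ hΛ v
    have h1 := E1_nonneg σ S ((QS σ S Λ).mulVec v)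
    have h2 := sq_nonneg' ((QS σ S Λ).mulVec v)
    have h3 : 0 ≤ Λ ^ 4 * Helper25.HL.sq ((QS σ S Λ).mulVec v) := by positivity
    have h4 : 0 ≤ Λ ^ 2 * E1 σ S ((QS σ S Λ).mulVec v) := by positivity
    linarith
  · rw [EB_eq σ S Λ hΛ, EB_eq σ S Λ hΛ, EB_eq σ S Λ hΛ, Matrix.mulVec_add, Matrix.mulVec_add]
    have h1 := E1_add σ S ((QS σ S Λ).mulVec v) ((QS σ S Λ).mulVec v')
    have h2 := sq_add_le ((XS σ S).mulVec ((QS σ S Λ).mulVec v))
      ((XS σ S).mulVec ((QS σ S Λ).mulVec v'))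
    have h3 : 0 ≤ Λ ^ 2 := by positivity
    nlinarith [mul_le_mul_of_nonneg_left h1 h3]
  · rw [EB_eq σ S Λ hΛ, EB_eq σ S Λ hΛ, Matrix.mulVec_smul, Matrix.mulVec_smul, E1_smul, sq_smul']
    ring

end Pool.Agent.Helper26.HL
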